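import Pool.Agent.Q66.RX.Stm

/-!
Job CRIT of project RX (helper66): the criterion for reflexivity.
-/

set_option autoImplicit false
set_option linter.unusedSectionVars false

namespace Pool.Agent.Q91.RX

open Pool.Agent.Q66.RX
open Topology Filter Set

variable {G : Type} [CommGroup G] [TopologicalSpace G] [IsTopologicalGroup G]

/-- the evaluation at an element of the group -/
noncomputable def crEv (g : G) : PontryaginDual (PontryaginDual G) :=
  ({ toFun := fun χ => χ g
     map_one' := rfl
     map_mul' := fun _ _ => rfl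
     continuous_toFun := (continuous_eval_const (F := C(G, Circle)) g).comp
       (ContinuousMonoidHom.isInducing_toContinuousMap G Circle).continuous } :
    (PontryaginDual G) →ₜ* Circle)

theorem crEv_apply (g : G) (χ : PontryaginDual G) : crEv g χ = χ g := rfl

/-- the evaluation as a homomorphism -/
noncomputable def crHom : G →* PontryaginDual (PontryaginDual G) where
  toFun := crEv
  map_one' := PontryaginDual.ext fun χ => map_one χ
  map_mul' a b := PontryaginDual.ext fun χ => map_mul χ a b

theorem crHom_apply (g : G) (χ : PontryaginDual G) : crHom g χ = χ g := rfl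

theorem cr_cont_rr : Continuous rr := Complex.continuous_re.comp continuous_subtype_val

theorem rr_one : rr 1 = 1 := by simp [rr]

theorem cr_inj [T2Space G] (h2 : R2 G) : Function.Injective (crHom : G → PontryaginDual (PontryaginDual G)) := by
  rw [injective_iff_map_eq_one]
  intro a ha
  by_contra hne
  obtain ⟨L, -, hL⟩ := h2 {a}ᶜ (isOpen_compl_singleton.mem_nhds (by
    simpa [eq_comm] using hne))
  refine hL a (fun χ _ => ?_) rfl
  have : χ a = 1 := by
    rw [← crHom_apply, ha]
    rfl
  rw [this, rr_one]
  exact zero_le_one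

theorem cr_surj (h3 : R3 G) : Function.Surjective (crHom : G → PontryaginDual (PontryaginDual G)) := by
  intro Φ
  obtain ⟨g, hg⟩ := h3 Φ
  exact ⟨g, PontryaginDual.ext fun χ => (hg χ).symm⟩

theorem cr_cont (hE : S_EQ) (h1 : R1 G) :
    Continuous (crHom : G → PontryaginDual (PontryaginDual G)) := by
  apply continuous_of_continuousAt_one
  have hind := ContinuousMonoidHom.isInducing_toContinuousMap (PontryaginDual G) Circle
  refine (hind.tendsto_nhds_iff).2 ?_
  rw [ContinuousMap.tendsto_nhds_compactOpen]
  intro L hL U hU hm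
  by_cases hne : L.Nonempty
  · obtain ⟨χ₀, h0⟩ := hne
    have h1U : (1 : Circle) ∈ U := by
      have h := hm h0
      have h' : (χ₀ (1 : G) : Circle) ∈ U := h
      rwa [map_one] at h'
    obtain ⟨W, hW, hWL⟩ := h1 L hL
    obtain ⟨W', hW', h⟩ := hE G W hW U (hU.mem_nhds h1U)
    filter_upwards [hW'] with g hg χ hχ
    exact h (χ : G →* Circle) (fun g hg => hWL χ hχ g hg) g hg
  · rw [Set.not_nonempty_iff_eq_empty] at hne
    subst hne
    exact Filter.Eventually.of_forall fun _ _ h => h.elim

theorem cr_open (h2 : R2 G) (h3 : R3 G) :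
    IsOpenMap (crHom : G → PontryaginDual (PontryaginDual G)) := by
  rw [IsTopologicalGroup.isOpenMap_iff_nhds_one]
  intro S hS
  rw [Filter.mem_map] at hS
  obtain ⟨L, hLc, hL⟩ := h2 _ hS
  have hind := ContinuousMonoidHom.isInducing_toContinuousMap (PontryaginDual G) Circle
  have ho : IsOpen {z : Circle | 0 < rr z} := isOpen_lt continuous_const cr_cont_rr
  have hO : IsOpen {Φ : PontryaginDual (PontryaginDual G) | ∀ χ ∈ L, 0 < rr (Φ χ)} :=
    (ContinuousMap.isOpen_setOfPred_mapsTo hLc ho).preimage hind.continuous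
  refine Filter.mem_of_superset (hO.mem_nhds ?_) ?_
  · intro χ _
    rw [PontryaginDual.one_apply, rr_one]
    exact zero_lt_one
  · intro Φ hΦ
    obtain ⟨g, rfl⟩ := cr_surj h3 Φ
    exact hL g fun χ hχ => (hΦ χ hχ).le

theorem t_CRIT (hE : S_EQ) : S_CRIT := by
  intro G _ _ _ _ h1 h2 h3
  let e : G ≃ PontryaginDual (PontryaginDual G) :=
    Equiv.ofBijective crHom ⟨cr_inj h2, cr_surj h3⟩
  exact ⟨e.toHomeomorphOfContinuousOpen (cr_cont hE h1) (cr_open h2 h3), fun _ _ => rfl⟩

end Pool.Agent.Q91.RX
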